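-- Pool/Agent/W170/K5/PUR.lean
import Pool.Agent.W205.K5.Stm0

set_option autoImplicit false

namespace Pool.Agent.W170.K5

open Pool.Agent.W205.K5

lemma KK_one : KK 1 = 0 := by
  unfold KK
  norm_num

lemma kk_le {k : ℕ} {w g : ℕ → ℝ} (h : Sys k w g) : KK 1 ≤ g 0 := by
  rw [KK_one]
  exact (h.gp 0 (Nat.zero_le k)).le

theorem pur2 : PIECE 2 1 → PLAST 2 → PURE 2 := by
  intro p1 pl w g h ρ h0 h1 h2
  rcases le_total (g 0) (KK 2) with c | c
  · exact p1 w g h (kk_le h) c ρ h0 h1 h2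
  · exact pl w g h c ρ h0 h1 h2

theorem pur3 : PIECE 3 1 → PIECE 3 2 → PLAST 3 → PURE 3 := by
  intro p1 p2 pl w g h ρ h0 h1 h2
  rcases le_total (g 0) (KK 2) with c | c
  · exact p1 w g h (kk_le h) c ρ h0 h1 h2
  rcases le_total (g 0) (KK 3) with d | d
  · exact p2 w g h c d ρ h0 h1 h2
  · exact pl w g h d ρ h0 h1 h2

theorem pur4 : PIECE 4 1 → PIECE 4 2 → PIECE 4 3 → PLAST 4 → PURE 4 := by
  intro p1 p2 p3 pl w g h ρ h0 h1 h2
  rcases le_total (g 0) (KK 2) with c | c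
  · exact p1 w g h (kk_le h) c ρ h0 h1 h2
  rcases le_total (g 0) (KK 3) with d | d
  · exact p2 w g h c d ρ h0 h1 h2
  rcases le_total (g 0) (KK 4) with e | e
  · exact p3 w g h d e ρ h0 h1 h2
  · exact pl w g h e ρ h0 h1 h2

theorem pur5 : PIECE 5 1 → PIECE 5 2 → PIECE 5 3 → PIECE 5 4 → PLAST 5 → PURE 5 := by
  intro p1 p2 p3 p4 pl w g h ρ h0 h1 h2
  rcases le_total (g 0) (KK 2) with c | c
  · exact p1 w g h (kk_le h) c ρ h0 h1 h2
  rcases le_total (g 0) (KK 3) with d | d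
  · exact p2 w g h c d ρ h0 h1 h2
  rcases le_total (g 0) (KK 4) with e | e
  · exact p3 w g h d e ρ h0 h1 h2
  rcases le_total (g 0) (KK 5) with f | f
  · exact p4 w g h e f ρ h0 h1 h2
  · exact pl w g h f ρ h0 h1 h2

theorem root : S_ROOT := by
  intro k hk
  have hk0 : (0 : ℝ) < k := by positivity
  have hk2 : (2 : ℝ) ≤ k := by exact_mod_cast hk
  set f : ℝ → ℝ := fun ρ => ρ ^ k + (1 - ρ / k) ^ k with hf
  have hcont : ContinuousOn f (Set.Icc (1 / 2) 1) := by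
    refine Continuous.continuousOn ?_
    rw [hf]
    fun_prop
  have h1 : 1 < f 1 := by
    have : (0 : ℝ) < 1 - 1 / k := by
      have : 1 / (k : ℝ) < 1 := by rw [div_lt_one hk0]; linarith
      linarith
    simp only [hf, one_pow]
    have := pow_pos this k
    linarith
  have h2 : f (1 / 2) < 1 := by
    have e1 : (1 - (1 / 2 : ℝ) / k) ^ k ≤ Real.exp (-(1 / 2)) :=
      Real.one_sub_div_pow_le_exp_neg (by linarith)
    have e2 : Real.exp (-(1 / 2 : ℝ)) ≤ 2 / 3 := by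
      rw [Real.exp_neg]
      have : (3 / 2 : ℝ) ≤ Real.exp (1 / 2) := by
        have := Real.add_one_le_exp (1 / 2 : ℝ)
        linarith
      calc (Real.exp (1 / 2))⁻¹ ≤ (3 / 2 : ℝ)⁻¹ := inv_anti₀ (by norm_num) this
        _ = 2 / 3 := by norm_num
    have e3 : ((1 : ℝ) / 2) ^ k ≤ (1 / 2) ^ 2 := pow_le_pow_of_le_one (by norm_num) (by norm_num) hk
    simp only [hf]
    have e4 : ((1 : ℝ) / 2) ^ 2 = 1 / 4 := by norm_num
    linarith
  obtain ⟨ρ, ⟨ha, hb⟩, hρ⟩ := intermediate_value_Icc (by norm_num : (1 / 2 : ℝ) ≤ 1) hcont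
    ⟨h2.le, h1.le⟩
  refine ⟨ρ, by linarith, lt_of_le_of_ne hb ?_, hρ⟩
  rintro rfl
  linarith

end Pool.Agent.W170.K5
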